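import Pool.Agent.Helper5.WP.Main

/-!
# Simple arrangements of straight lines that are missing from a topological projective plane

`P2` is the unit sphere of `ℝ³` modulo `±`, `straight l` is its straight line with the normal
vector `l`. Pseudolines, pseudoline arrangements, topological projective planes and the presence
of an arrangement in a plane are defined in `Pool.Agent.Helper7.TP.Defs`.

We construct a topological projective plane (with a two-dimensional group of automorphisms) and a
number `δ > 0` such that no set of straight lines which is `δ`-dense among all straight lines is
present in the plane. In particular, the arrangement of the first `n` terms of a random sequence of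
straight lines is almost surely not present for all large `n`, and some simple arrangement of
straight lines is not present.
-/

set_option autoImplicit false

namespace Pool.Agent.Results.MP_eb1065_co.DenseMissing

open Pool.Agent.Helper7.TP Set MeasureTheory

/-- There is a topological projective plane `𝓛` with the following properties. There is a `δ > 0`
such that a set of pseudolines which contains straight lines with normal vectors in every ball of
radius `δ` of the unit sphere is not present in `𝓛`. If the normal vectors of the straight lines
are independent and have the same law, with full support, then almost surely the arrangement of the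
first `n` lines is not present in `𝓛` for all large `n`. Some simple arrangement of straight lines
(at most two of them through every point) is not present in `𝓛`. -/
theorem result : ∃ 𝓛 : Set (Set P2), IsTPP 𝓛 ∧
    (∃ δ > 0, ∀ 𝒜 : Set (Set P2), (∀ m : S2, ∃ l : S2, straight l ∈ 𝒜 ∧ ‖(l : E3) - m‖ < δ) →
      ¬ Present 𝒜 𝓛) ∧
    (∀ μ : Measure S2, IsProbabilityMeasure μ →
      (∀ V : Set S2, IsOpen V → V.Nonempty → 0 < μ V) →
      ∀ᵐ ω ∂(Measure.infinitePi fun _ : ℕ => μ), ∀ᶠ n in Filter.atTop,
        ¬ Present (range fun i : Fin n => straight (ω i)) 𝓛) ∧
    ∃ (n : ℕ) (l : Fin n → S2), IsArrangement (range fun i => straight (l i)) ∧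
      (∀ x, {C ∈ range fun i => straight (l i) | x ∈ C}.ncard ≤ 2) ∧
      ¬ Present (range fun i => straight (l i)) 𝓛 :=
  Pool.Agent.Helper5.WP.main

end Pool.Agent.Results.MP_eb1065_co.DenseMissing
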