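import Pool.Agent.Helper7.TP.Main

/-!
# Arrangements that are present in every topological projective plane are sparse

`P2` is the unit sphere of `ℝ³` modulo `±`, `straight l` is its straight line with the normal
vector `l`. Pseudolines, pseudoline arrangements, topological projective planes and the presence
of an arrangement in a plane are defined in `Pool.Agent.Helper7.TP.Defs`.

We construct a topological projective plane such that for every arrangement which is present in
it, and for every subarrangement with `L` pseudolines, the number of incidences of these
pseudolines with any `V` points is at most `2 V + 2 L`. Fifteen straight lines, which are an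
arrangement with more incidences, are not present in it.
-/

set_option autoImplicit false

namespace Pool.Agent.Results.MP_eb1065_co.SparsePlane

open Pool.Agent.Helper7.TP Set

/-- There is a topological projective plane `𝓛` in which every present arrangement is sparse: for
all sets `ℬ` of its pseudolines and all finite sets `W` of points, the number of incidences between
`W` and `ℬ` is at most `2 |W| + 2 |ℬ|`. Some arrangement of fifteen straight lines is not present
in the plane `𝓛`. -/
theorem result : ∃ 𝓛 : Set (Set P2), IsTPP 𝓛 ∧
    (∀ 𝒜, IsArrangement 𝒜 → Present 𝒜 𝓛 → ∀ ℬ ⊆ 𝒜, ∀ W : Finset P2,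
      ∑ x ∈ W, {C ∈ ℬ | x ∈ C}.ncard ≤ 2 * W.card + 2 * ℬ.ncard) ∧
    ∃ ℓ : Fin 15 → S2, IsArrangement (range fun i => straight (ℓ i)) ∧
      (range fun i => straight (ℓ i)).ncard = 15 ∧
      ¬ Present (range fun i => straight (ℓ i)) 𝓛 :=
  main

end Pool.Agent.Results.MP_eb1065_co.SparsePlane
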